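import Pool.Agent.MWFE.StmtsB

/-!
# Row CPZ of squad MWFE: block `1` of the words of the class (twin of CPR, squad MWE)
-/

set_option autoImplicit false

namespace Pool.Agent.MWFE.H19C

open Pool.Agent.Helper14_MV Pool.Agent.Helper2_MV Pool.Agent.MVD
open Pool.Agent.MWE (Can XX fxy dxy dx dy up cp L4 pr Xs xl isx Fs nd nr)
open Pool.Agent.MWGR (cb)

/-! ### lists -/

theorem sfr_filter {p : ℕ → Bool} {l : List ℕ} (h : SFr l) : SFr (l.filter p) :=
  fun a ha => h a (List.mem_of_mem_filter ha)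

theorem sfr_append {l l' : List ℕ} (h : SFr l) (h' : SFr l') : SFr (l ++ l') := by
  intro a ha
  rcases List.mem_append.mp ha with h1 | h1
  · exact h a h1
  · exact h' a h1

theorem sfr_cons {a : ℕ} {l : List ℕ} (h0 : a % 3 ≠ 2) (h : SFr l) : SFr (a :: l) := by
  intro b hb
  rcases List.mem_cons.mp hb with h1 | h1
  · subst h1
    exact h0
  · exact h b h1

theorem sfr_nil : SFr [] := by
  intro a ha
  exact absurd ha List.not_mem_nil

theorem sfr_xx {X : List ℕ} (h : XX X) : SFr X := by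
  rcases h with h | h
  · subst h
    exact sfr_cons (by norm_num) (sfr_cons (by norm_num) sfr_nil)
  · subst h
    exact sfr_cons (by norm_num) (sfr_cons (by norm_num) sfr_nil)

theorem fxy_nil {l : List ℕ} (h0 : 0 ∉ l) (h3 : 3 ∉ l) : fxy l = [] := by
  unfold fxy
  rw [List.filter_eq_nil_iff]
  intro a ha
  simp only [decide_eq_true_eq, not_or]
  exact ⟨fun h => h0 (h ▸ ha), fun h => h3 (h ▸ ha)⟩

theorem dxy_self {l : List ℕ} (h0 : 0 ∉ l) (h3 : 3 ∉ l) : dxy l = l := by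
  unfold dxy
  rw [List.filter_eq_self]
  intro a ha
  simp only [decide_eq_true_eq]
  exact ⟨fun h => h0 (h ▸ ha), fun h => h3 (h ▸ ha)⟩

theorem dx_self {l : List ℕ} (h0 : 0 ∉ l) : dx l = l := by
  unfold dx
  rw [List.filter_eq_self]
  intro a ha
  simp only [decide_eq_true_eq]
  exact fun h => h0 (h ▸ ha)

theorem dy_self {l : List ℕ} (h3 : 3 ∉ l) : dy l = l := by
  unfold dy
  rw [List.filter_eq_self]
  intro a ha
  simp only [decide_eq_true_eq]
  exact fun h => h3 (h ▸ ha)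

theorem fxy_append (l l' : List ℕ) : fxy (l ++ l') = fxy l ++ fxy l' := List.filter_append _ _

theorem dxy_append (l l' : List ℕ) : dxy (l ++ l') = dxy l ++ dxy l' := List.filter_append _ _

theorem dx_append (l l' : List ℕ) : dx (l ++ l') = dx l ++ dx l' := List.filter_append _ _

theorem dy_append (l l' : List ℕ) : dy (l ++ l') = dy l ++ dy l' := List.filter_append _ _

theorem fxy_0 (l : List ℕ) : fxy (0 :: l) = 0 :: fxy l := rfl

theorem fxy_3 (l : List ℕ) : fxy (3 :: l) = 3 :: fxy l := rfl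

theorem dx_0 (l : List ℕ) : dx (0 :: l) = dx l := rfl

theorem dx_3 (l : List ℕ) : dx (3 :: l) = 3 :: dx l := rfl

theorem dy_0 (l : List ℕ) : dy (0 :: l) = 0 :: dy l := rfl

theorem dy_3 (l : List ℕ) : dy (3 :: l) = dy l := rfl

theorem dxy_0 (l : List ℕ) : dxy (0 :: l) = dxy l := rfl

theorem dxy_3 (l : List ℕ) : dxy (3 :: l) = dxy l := rfl

/-- a letter with one occurrence -/
theorem split1 {l : List ℕ} {a : ℕ} (h : l.count a = 1) :
    ∃ D1 D2, l = D1 ++ a :: D2 ∧ a ∉ D1 ∧ a ∉ D2 := by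
  have hm : a ∈ l := by
    rw [← List.count_pos_iff]
    omega
  obtain ⟨D1, D2, hD⟩ := List.append_of_mem hm
  subst hD
  rw [List.count_append, List.count_cons_self] at h
  exact ⟨D1, D2, rfl, List.count_eq_zero.mp (by omega), List.count_eq_zero.mp (by omega)⟩

/-- two letters with one occurrence -/
theorem split2 {l : List ℕ} (h0 : l.count 0 = 1) (h3 : l.count 3 = 1) :
    (∃ A g C, l = A ++ 0 :: (g ++ 3 :: C) ∧ 0 ∉ A ∧ 0 ∉ g ∧ 0 ∉ C ∧ 3 ∉ A ∧ 3 ∉ g ∧ 3 ∉ C) ∨
    (∃ A g C, l = A ++ 3 :: (g ++ 0 :: C) ∧ 0 ∉ A ∧ 0 ∉ g ∧ 0 ∉ C ∧ 3 ∉ A ∧ 3 ∉ g ∧ 3 ∉ C) := by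
  obtain ⟨D1, D2, hD, hn1, hn2⟩ := split1 h0
  have hm : 3 ∈ l := by
    rw [← List.count_pos_iff]
    omega
  rw [hD, List.count_append, List.count_cons_of_ne (by norm_num)] at h3
  rw [hD] at hm
  rcases List.mem_append.mp hm with hm | hm
  · right
    have hc : 0 < D1.count 3 := List.count_pos_iff.mpr hm
    obtain ⟨A, g, hA, hm1, hm2⟩ := split1 (l := D1) (a := 3) (by omega)
    refine ⟨A, g, D2, ?_, ?_, ?_, hn2, hm1, hm2, List.count_eq_zero.mp (by omega)⟩
    · rw [hD, hA]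
      simp only [List.append_assoc, List.cons_append]
    · intro h
      exact hn1 (hA ▸ List.mem_append_left _ h)
    · intro h
      exact hn1 (hA ▸ List.mem_append_right _ (List.mem_cons_of_mem _ h))
  · left
    rcases List.mem_cons.mp hm with hm | hm
    · exact absurd hm (by norm_num)
    have hc : 0 < D2.count 3 := List.count_pos_iff.mpr hm
    obtain ⟨g, C, hA, hm1, hm2⟩ := split1 (l := D2) (a := 3) (by omega)
    refine ⟨D1, g, C, ?_, hn1, ?_, ?_, List.count_eq_zero.mp (by omega), hm1, hm2⟩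
    · rw [hD, hA]
    · intro h
      exact hn2 (hA ▸ List.mem_append_left _ h)
    · intro h
      exact hn2 (hA ▸ List.mem_append_right _ (List.mem_cons_of_mem _ h))

theorem can_ne {m : ℕ} {c : List ℕ} (h : Can m c) {a : ℕ} (ha : a ∈ c) : a ≠ 0 ∧ a ≠ 3 := by
  rcases h.lo a ha with ⟨d, -, hd⟩ | ⟨-, h6, -⟩
  · omega
  · omega

/-! ### the exchange -/

theorem tr {β : FIC} {a b c : List ℕ} (h : RR β a b) (h' : RR β b c) : RR β a c :=
  β.trans h h'

theorem up_0 (B : ℕ → List ℕ) (D : List ℕ) : up B 0 D 0 = D := by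
  unfold up
  rw [if_pos rfl]

theorem up_ne (B : ℕ → List ℕ) (D : List ℕ) {r : ℕ} (hr : r ≠ 0) : up B 0 D r = B r := by
  unfold up
  rw [if_neg hr]

theorem sfr_up {B : ℕ → List ℕ} {D : List ℕ} (h : ∀ r, SFr (B r)) (hD : SFr D) :
    ∀ r, SFr (up B 0 D r) := by
  intro r
  unfold up
  split_ifs
  · exact hD
  · exact h r


/-! ### numbers of letters before a letter -/

theorem cb_cons_self (l : List ℕ) (x a : ℕ) : cb (a :: l) x a = 0 := by
  unfold cb
  rw [List.takeWhile_cons_of_neg (by simp)]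
  rfl

theorem cb_notin {l1 l2 : List ℕ} {x a : ℕ} (h : a ∉ l1) :
    cb (l1 ++ l2) x a = l1.count x + cb l2 x a := by
  unfold cb
  rw [List.takeWhile_append_of_pos, List.count_append]
  intro b hb
  simp only [ne_eq, decide_not, Bool.not_eq_eq_eq_not, Bool.not_true, decide_eq_false_iff_not]
  rintro rfl
  exact h hb

theorem cb_in {l1 l2 : List ℕ} {x a : ℕ} (h : a ∈ l1) : cb (l1 ++ l2) x a = cb l1 x a := by
  obtain ⟨s, t, rfl, hs⟩ := List.eq_append_cons_of_mem h
  rw [List.append_assoc, cb_notin hs, List.cons_append, cb_cons_self, cb_notin hs, cb_cons_self]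

theorem cb_le (l : List ℕ) (x a : ℕ) : cb l x a ≤ l.count x :=
  (List.takeWhile_sublist _).count_le x

theorem tk_count_z {n z v l : ℕ} (hv : v ≠ z) (hl : l ≤ 2 * n) : (tk n z v l).count z = 3 * n := by
  unfold tk
  rw [List.count_append, List.count_replicate_self, List.count_cons_of_ne hv,
    List.count_replicate_self]
  omega

theorem tk_count_ne {n z v l a : ℕ} (ha : a ≠ z) :
    (tk n z v l).count a = if v = a then 1 else 0 := by
  unfold tk
  have h1 : ∀ k, (List.replicate k z).count a = 0 := fun k =>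
    List.count_eq_zero.2 (fun h => ha (List.eq_of_mem_replicate h))
  rw [List.count_append, h1, List.count_cons, h1]
  by_cases hv : v = a
  · simp [hv]
  · simp [hv]

theorem tk_notin {n z v l u : ℕ} (h1 : u ≠ z) (h2 : u ≠ v) : u ∉ tk n z v l := by
  rw [← List.count_eq_zero, tk_count_ne h1, if_neg (fun h => h2 h.symm)]

theorem tk_cb_self {n z v l : ℕ} (W : List ℕ) (hv : v ≠ z) : cb (tk n z v l ++ W) z v = n + l := by
  unfold tk
  have h1 : v ∉ List.replicate (n + l) z := fun h => hv (List.eq_of_mem_replicate h)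
  rw [List.append_assoc, cb_notin h1, List.cons_append, cb_cons_self, List.count_replicate_self,
    Nat.add_zero]

theorem tk_cb_ne {n z v l u : ℕ} (W : List ℕ) (hv : v ≠ z) (hu : u ≠ z) (huv : u ≠ v)
    (hl : l ≤ 2 * n) : cb (tk n z v l ++ W) z u = 3 * n + cb W z u := by
  rw [cb_notin (tk_notin hu huv), tk_count_z hv hl]

theorem KZ2 (n z a b : ℕ) (W : List ℕ) :
    KZ n z [a, b] ++ W = tk n z a (lam a) ++ (tk n z b (lam b) ++ W) := by
  unfold KZ
  rw [List.flatMap_cons, List.flatMap_cons, List.flatMap_nil, List.append_nil, List.append_assoc]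

theorem lam0 : lam 0 = 0 := rfl

theorem lam3 : lam 3 = 1 := rfl

theorem fxy_rep {z k : ℕ} (h0 : z ≠ 0) (h3 : z ≠ 3) : fxy (List.replicate k z) = [] := by
  apply fxy_nil
  · intro h
    exact h0 (List.eq_of_mem_replicate h).symm
  · intro h
    exact h3 (List.eq_of_mem_replicate h).symm

theorem fxy_tk {n z v l : ℕ} (h0 : z ≠ 0) (h3 : z ≠ 3) (hv : v = 0 ∨ v = 3) :
    fxy (tk n z v l) = [v] := by
  unfold tk
  rw [fxy_append, fxy_rep h0 h3]
  rcases hv with rfl | rfl
  · rw [fxy_0, fxy_rep h0 h3]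
    rfl
  · rw [fxy_3, fxy_rep h0 h3]
    rfl

theorem fxy_KZ {n z a b : ℕ} {E : List ℕ} (h0 : z ≠ 0) (h3 : z ≠ 3) (ha : a = 0 ∨ a = 3)
    (hb : b = 0 ∨ b = 3) (hE : fxy E = []) : fxy (KZ n z [a, b] ++ E) = [a, b] := by
  rw [KZ2, fxy_append, fxy_append, fxy_tk h0 h3 ha, fxy_tk h0 h3 hb, hE]
  rfl

theorem sfr_rep {z k : ℕ} (h : z % 3 ≠ 2) : SFr (List.replicate k z) := by
  intro a ha
  rw [List.eq_of_mem_replicate ha]
  exact h

theorem sfr_tk {n z v l : ℕ} (h : z % 3 ≠ 2) (hv : v % 3 ≠ 2) : SFr (tk n z v l) := by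
  unfold tk
  exact sfr_append (sfr_rep h) (sfr_cons hv (sfr_rep h))

theorem sfr_KZ {n z a b : ℕ} (h : z % 3 ≠ 2) (ha : a % 3 ≠ 2) (hb : b % 3 ≠ 2) :
    SFr (KZ n z [a, b]) := by
  have h1 := KZ2 n z a b []
  rw [List.append_nil, List.append_nil] at h1
  rw [h1]
  exact sfr_append (sfr_tk h ha) (sfr_tk h hb)

theorem dz_perm {z : ℕ} {D D' : List ℕ} (h : ∀ a, a ≠ z → D.count a = D'.count a) :
    (dz z D).Perm (dz z D') := by
  rw [List.perm_iff_count]
  intro a
  unfold dz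
  by_cases ha : a = z
  · subst ha
    have h1 : ∀ l : List ℕ, (l.filter (fun b => decide (b ≠ a))).count a = 0 := by
      intro l
      rw [List.count_eq_zero]
      intro hm
      have := List.of_mem_filter hm
      simp at this
    rw [h1, h1]
  · rw [List.count_filter (by simpa using ha), List.count_filter (by simpa using ha)]
    exact h a ha

/-- the tokens in `D` -/
theorem tk2_KZ {n z a b : ℕ} {E : List ℕ} (hn : 2 ≤ n) (h0 : z ≠ 0) (h3 : z ≠ 3)
    (hab : (a = 0 ∧ b = 3) ∨ (a = 3 ∧ b = 0)) : Tk2 z (KZ n z [a, b] ++ E) := by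
  intro v hv
  have hl : ∀ u, lam u ≤ 1 := by
    intro u
    unfold lam
    split_ifs <;> omega
  have ha : a ≠ z := by omega
  have hb : b ≠ z := by omega
  have hla := hl a
  have hlb := hl b
  have hv' : v = a ∨ v = b := by omega
  have hab' : a ≠ b := by omega
  rw [KZ2]
  have hc : (tk n z a (lam a) ++ (tk n z b (lam b) ++ E)).count z = 3 * n + (3 * n + E.count z) := by
    rw [List.count_append, List.count_append, tk_count_z ha (by omega), tk_count_z hb (by omega)]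
  rw [hc]
  rcases hv' with rfl | rfl
  · rw [tk_cb_self _ ha]
    omega
  · rw [tk_cb_ne _ ha hb (fun h => hab' h.symm) (by omega), tk_cb_self _ hb]
    omega

/-- the tokens in `W ++ token` and `token ++ W` -/
theorem tk2_W {n z u v l : ℕ} {W0 : List ℕ} (hn : 2 ≤ n) (hl : l ≤ 1) (hu : u ≠ z) (hv : v ≠ z)
    (huv : (u = 0 ∧ v = 3) ∨ (u = 3 ∧ v = 0)) (hm : u ∈ W0) (hm' : v ∉ W0) :
    Tk2 z ((List.replicate n z ++ (W0 ++ List.replicate n z)) ++ tk n z v l) ∧
      Tk2 z (tk n z v l ++ (List.replicate n z ++ (W0 ++ List.replicate n z))) := by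
  have hne : u ≠ v := by omega
  have hur : ∀ k, u ∉ List.replicate k z := fun k h => hu (List.eq_of_mem_replicate h)
  have hvr : ∀ k, v ∉ List.replicate k z := fun k h => hv (List.eq_of_mem_replicate h)
  have hvW : v ∉ List.replicate n z ++ (W0 ++ List.replicate n z) := by
    intro h
    rcases List.mem_append.1 h with h | h
    · exact hvr _ h
    · rcases List.mem_append.1 h with h | h
      · exact hm' h
      · exact hvr _ h
  have huW : u ∈ List.replicate n z ++ (W0 ++ List.replicate n z) :=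
    List.mem_append_right _ (List.mem_append_left _ hm)
  have hcu : cb (List.replicate n z ++ (W0 ++ List.replicate n z)) z u = n + cb W0 z u := by
    rw [cb_notin (hur n), List.count_replicate_self, cb_in hm]
  have hcc : (List.replicate n z ++ (W0 ++ List.replicate n z)).count z
      = n + (W0.count z + n) := by
    rw [List.count_append, List.count_append, List.count_replicate_self]
  have hle := cb_le W0 z u
  have htk : (tk n z v l).count z = 3 * n := tk_count_z hv (by omega)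
  constructor
  · intro w hw
    have hw' : w = u ∨ w = v := by omega
    rw [List.count_append, hcc, htk]
    rcases hw' with rfl | rfl
    · rw [cb_in huW, hcu]
      omega
    · rw [cb_notin hvW, hcc]
      have h1 := tk_cb_self (n := n) (l := l) [] hv
      rw [List.append_nil] at h1
      rw [h1]
      omega
  · intro w hw
    have hw' : w = u ∨ w = v := by omega
    rw [List.count_append, hcc, htk]
    rcases hw' with rfl | rfl
    · rw [tk_cb_ne _ hv hu hne (by omega), hcu]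
      omega
    · rw [tk_cb_self _ hv]
      omega

theorem pz_0 (n z : ℕ) (B : ℕ → List ℕ) :
    pz n z B 0 = List.replicate n z ++ (B 0 ++ List.replicate n z) := by
  unfold pz
  rw [up_0]

theorem pz_ne (n z : ℕ) (B : ℕ → List ℕ) {r : ℕ} (hr : r ≠ 0) : pz n z B r = B r := by
  unfold pz
  rw [up_ne _ _ hr]

theorem sfr_pz {n z : ℕ} {B : ℕ → List ℕ} (h : z % 3 ≠ 2) (hB : ∀ r, SFr (B r)) :
    ∀ r, SFr (pz n z B r) := by
  intro r
  by_cases hr : r = 0
  · subst hr
    rw [pz_0]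
    exact sfr_append (sfr_rep h) (sfr_append (hB 0) (sfr_rep h))
  · rw [pz_ne _ _ _ hr]
    exact hB r

section

variable {n : ℕ} {β : FIC} {m : ℕ} {R c : List ℕ}

/-- the hypotheses -/
structure Sc (n : ℕ) (β : FIC) (m : ℕ) (R c : List ℕ) : Prop where
  hz : Hz n β
  can : Can m c
  ne : c ≠ []
  ih : IZ n β c
  pR : R.Perm (List.range (m + 2))
  b01 : Bfr R 0 1
  no : ¬ EZ n β m R c

/-- the exchange by `XCZ`, the tokens at the left end of block `0` -/
theorem ee0 (h2 : BazStmt) (h7 : XczStmt) (S : Sc n β m R c) {P Q : ℕ → List ℕ}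
    {e E A g C : List ℕ} (hsP : ∀ r, SFr (P r)) (hse : SFr e)
    (hP : RR β (ExZ n m R c [0, 3]) (Bw R P ++ e)) (hQ : RR β (ExZ n m R c [3, 0]) (Bw R Q ++ e))
    (hPQ : ∀ r, r ≠ 0 → P r = Q r) (hP0 : P 0 = KZ n (3 * m + 1) [0, 3] ++ E)
    (hQ0 : Q 0 = KZ n (3 * m + 1) [3, 0] ++ E)
    (hP1 : P 1 = A ++ 0 :: (g ++ 3 :: C)) (hor : (∃ a ∈ c, a ∉ g) ∨ A ≠ [] ∨ C ≠ []) :
    EZ n β m R c := by
  have hB := h2 n β m R c [0, 3] P e S.hz S.can S.pR S.b01 (Or.inl rfl) hsP hse hP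
  have hX := h7 n β m R c P e S.hz S.can S.ih S.pR S.b01 hB E A g C hP0 hP1 hor
  have hU : up P 0 (KZ n (3 * m + 1) [3, 0] ++ E) = Q := by
    funext r
    by_cases hr : r = 0
    · subst hr
      rw [up_0, hQ0]
    · rw [up_ne _ _ hr, hPQ r hr]
  rw [hU] at hX
  exact tr (tr hP hX) hQ.symm

/-- normal form of block `0` -/
theorem nf0 (h1 : LqrStmt) (h2 : BazStmt) (h3 : LbzStmt) (h6 : BlnStmt) (S : Sc n β m R c)
    {a b : ℕ} (hab : (a = 0 ∧ b = 3) ∨ (a = 3 ∧ b = 0))
    {P : ℕ → List ℕ} {e E : List ℕ} (hsP : ∀ r, SFr (P r)) (hse : SFr e)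
    (hP : RR β (ExZ n m R c [a, b]) (Bw R P ++ e)) (hsE : SFr E) (hfE : fxy E = [])
    (hdP : ∀ u, u ≠ 3 * m + 1 → (KZ n (3 * m + 1) [a, b] ++ E).count u = (P 0).count u)
    (hfP : fxy (P 0) = [a, b]) (hcP : (P 0).count (3 * m + 1) = E.count (3 * m + 1) + 3 * n)
    (hTP : Tk2 (3 * m + 1) (P 0)) (hfu : ∀ u ∈ c, u ∈ P 1) :
    RR β (ExZ n m R c [a, b]) (Bw R (up P 0 (KZ n (3 * m + 1) [a, b] ++ E)) ++ e) := by
  have hXX : XX [a, b] := by
    rcases hab with ⟨rfl, rfl⟩ | ⟨rfl, rfl⟩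
    · exact Or.inl rfl
    · exact Or.inr rfl
  have hBP := h2 n β m R c [a, b] P e S.hz S.can S.pR S.b01 hXX hsP hse hP
  have hfP' : Bfz m R c P e := { hBP with fu := hfu }
  obtain ⟨hlab, -⟩ := h3 n β m R c [a, b] P e S.hz S.can S.pR S.b01 hXX hsP hse hP
  obtain ⟨-, -, -, l4, -⟩ := h1 n β S.hz
  have hn := S.hz.n2
  have hz0 : 3 * m + 1 ≠ 0 := by omega
  have hz3 : 3 * m + 1 ≠ 3 := by omega
  have hl1 : ∀ u, lam u ≤ 1 := by
    intro u
    unfold lam
    split_ifs <;> omega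
  have hla := hl1 a
  have hlb := hl1 b
  have ha0 : a ≠ 3 * m + 1 := by omega
  have hb0 : b ≠ 3 * m + 1 := by omega
  have hne : b ≠ a := by omega
  have hmod3 : ∀ k : ℕ, 3 * n + k ≡ k [MOD n] := by
    intro k
    have h := (Nat.modEq_zero_iff_dvd.2 (Dvd.intro_left 3 rfl) : 3 * n ≡ 0 [MOD n]).add_right k
    rwa [Nat.zero_add] at h
  have hmod1 : ∀ k : ℕ, n + k ≡ k [MOD n] := by
    intro k
    have h := (Nat.modEq_zero_iff_dvd.2 (dvd_refl n) : n ≡ 0 [MOD n]).add_right k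
    rwa [Nat.zero_add] at h
  have hsD : SFr (KZ n (3 * m + 1) [a, b] ++ E) := sfr_append (sfr_KZ (by omega) (by omega)
    (by omega)) hsE
  have hBL := h6 n β m R c P e S.hz S.can S.pR S.b01 hfP' (KZ n (3 * m + 1) [a, b] ++ E) hsD
    (by rw [hfP, fxy_KZ hz0 hz3 (by omega) (by omega) hfE])
    (dz_perm hdP)
    (by
      intro v hv
      refine l4 _ _ _ _ rfl ?_ (hlab v hv)
      have hv' : v = a ∨ v = b := by omega
      rw [KZ2]
      rcases hv' with rfl | rfl
      · rw [tk_cb_self _ ha0]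
        exact (hmod1 _).symm
      · rw [tk_cb_ne _ ha0 hb0 hne (by omega), tk_cb_self _ hb0]
        exact ((hmod3 _).trans (hmod1 _)).symm)
    (by
      rw [KZ2, List.count_append, List.count_append, tk_count_z ha0 (by omega),
        tk_count_z hb0 (by omega), hcP, Nat.add_comm (E.count (3 * m + 1))]
      exact (hmod3 _).trans ((hmod3 _).trans (hmod3 _)).symm)
    hTP (tk2_KZ hn hz0 hz3 hab)
  exact tr hP hBL

/-- the exchange, with arbitrary blocks `0` -/
theorem ee1 (h1 : LqrStmt) (h2 : BazStmt) (h3 : LbzStmt) (h6 : BlnStmt) (h7 : XczStmt)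
    (S : Sc n β m R c) {P Q : ℕ → List ℕ}
    {e E A g C : List ℕ} (hsP : ∀ r, SFr (P r)) (hsQ : ∀ r, SFr (Q r)) (hse : SFr e)
    (hP : RR β (ExZ n m R c [0, 3]) (Bw R P ++ e)) (hQ : RR β (ExZ n m R c [3, 0]) (Bw R Q ++ e))
    (hPQ : ∀ r, r ≠ 0 → P r = Q r) (hsE : SFr E) (hfE : fxy E = [])
    (hdP : ∀ u, u ≠ 3 * m + 1 → (KZ n (3 * m + 1) [0, 3] ++ E).count u = (P 0).count u)
    (hdQ : ∀ u, u ≠ 3 * m + 1 → (KZ n (3 * m + 1) [3, 0] ++ E).count u = (Q 0).count u)
    (hfP : fxy (P 0) = [0, 3]) (hfQ : fxy (Q 0) = [3, 0])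
    (hcP : (P 0).count (3 * m + 1) = E.count (3 * m + 1) + 3 * n)
    (hcQ : (Q 0).count (3 * m + 1) = E.count (3 * m + 1) + 3 * n)
    (hTP : Tk2 (3 * m + 1) (P 0)) (hTQ : Tk2 (3 * m + 1) (Q 0))
    (hP1 : P 1 = A ++ 0 :: (g ++ 3 :: C)) (hfu : ∀ a ∈ c, a ∈ P 1)
    (hor : (∃ a ∈ c, a ∉ g) ∨ A ≠ [] ∨ C ≠ []) : EZ n β m R c := by
  have k1 := nf0 h1 h2 h3 h6 S (Or.inl ⟨rfl, rfl⟩) hsP hse hP hsE hfE hdP hfP hcP hTP hfu
  have k2 := nf0 h1 h2 h3 h6 S (Or.inr ⟨rfl, rfl⟩) hsQ hse hQ hsE hfE hdQ hfQ hcQ hTQ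
    (fun a ha => hPQ 1 (by norm_num) ▸ hfu a ha)
  exact ee0 h2 h7 S (P := up P 0 (KZ n (3 * m + 1) [0, 3] ++ E))
    (Q := up Q 0 (KZ n (3 * m + 1) [3, 0] ++ E)) (E := E)
    (sfr_up hsP (sfr_append (sfr_KZ (by omega) (by omega) (by omega)) hsE)) hse k1 k2
    (by
      intro r hr
      rw [up_ne _ _ hr, up_ne _ _ hr]
      exact hPQ r hr)
    (up_0 _ _) (up_0 _ _) (by rw [up_ne _ _ (by norm_num)]; exact hP1) hor

theorem count_dxy {l : List ℕ} {u : ℕ} (h0 : u ≠ 0) (h3 : u ≠ 3) : (dxy l).count u = l.count u := by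
  unfold dxy
  rw [List.count_filter (by simp [h0, h3])]

theorem count_dxy0 {l : List ℕ} : (dxy l).count 0 = 0 := by
  rw [List.count_eq_zero]
  intro h
  unfold dxy at h
  have := List.of_mem_filter h
  simp at this

theorem count_dxy3 {l : List ℕ} : (dxy l).count 3 = 0 := by
  rw [List.count_eq_zero]
  intro h
  unfold dxy at h
  have := List.of_mem_filter h
  simp at this

theorem count_dy {l : List ℕ} {u : ℕ} (h3 : u ≠ 3) : (dy l).count u = l.count u := by
  unfold dy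
  rw [List.count_filter (by simp [h3])]

theorem count_dy3 {l : List ℕ} : (dy l).count 3 = 0 := by
  rw [List.count_eq_zero]
  intro h
  unfold dy at h
  have := List.of_mem_filter h
  simp at this

theorem count_dx {l : List ℕ} {u : ℕ} (h3 : u ≠ 0) : (dx l).count u = l.count u := by
  unfold dx
  rw [List.count_filter (by simp [h3])]

theorem count_dx0 {l : List ℕ} : (dx l).count 0 = 0 := by
  rw [List.count_eq_zero]
  intro h
  unfold dx at h
  have := List.of_mem_filter h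
  simp at this

theorem fxy_one {l : List ℕ} {u v : ℕ} (huv : (u = 0 ∧ v = 3) ∨ (u = 3 ∧ v = 0))
    (h1 : l.count u = 1) (h2 : l.count v = 0) : fxy l = [u] := by
  obtain ⟨D1, D2, hD, hn1, hn2⟩ := split1 h1
  have hv : v ∉ l := List.count_eq_zero.1 h2
  have hv1 : v ∉ D1 := fun h => hv (hD ▸ List.mem_append_left _ h)
  have hv2 : v ∉ D2 := fun h => hv (hD ▸ List.mem_append_right _ (List.mem_cons_of_mem _ h))
  rcases huv with ⟨rfl, rfl⟩ | ⟨rfl, rfl⟩
  · rw [hD, fxy_append, fxy_0, fxy_nil hn1 hv1, fxy_nil hn2 hv2]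
    rfl
  · rw [hD, fxy_append, fxy_3, fxy_nil hv1 hn1, fxy_nil hv2 hn2]
    rfl

theorem rep_dy {n z : ℕ} (h : z ≠ 3) : dy (List.replicate n z) = List.replicate n z :=
  dy_self fun h' => h (List.eq_of_mem_replicate h').symm

theorem rep_dx {n z : ℕ} (h : z ≠ 0) : dx (List.replicate n z) = List.replicate n z :=
  dx_self fun h' => h (List.eq_of_mem_replicate h').symm

/-- the letter `y` is deleted and inserted again -/
theorem eey (h1 : LqrStmt) (h2 : BazStmt) (h3 : LbzStmt) (h5 : TrzStmt) (h6 : BlnStmt)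
    (h7 : XczStmt) (S : Sc n β m R c)
    {X : List ℕ} (hX : XX X) {B : ℕ → List ℕ} {e A g : List ℕ} (hsB : ∀ r, SFr (B r))
    (hse : SFr e) (hB : RR β (ExZ n m R c X) (Bw R (pz n (3 * m + 1) B) ++ e))
    (hfu : ∀ a ∈ c, a ∈ B 1)
    (hB1 : dy (B 1) = A ++ 0 :: g) (hor : (∃ a ∈ c, a ∉ g) ∨ A ≠ []) : EZ n β m R c := by
  have hz3 : 3 * m + 1 ≠ 3 := by omega
  have hsB' := sfr_pz (n := n) (z := 3 * m + 1) (by omega) hsB
  have hBs := h2 n β m R c X (pz n (3 * m + 1) B) e S.hz S.can S.pR S.b01 hX hsB' hse hB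
  obtain ⟨-, hP, hQ, -, -⟩ :=
    h5 n β m R c X (pz n (3 * m + 1) B) e S.hz S.can S.pR S.b01 hX hsB' hse hB
  obtain ⟨B', hB'⟩ : ∃ B', B' = pz n (3 * m + 1) B := ⟨_, rfl⟩
  have hB'0 : B' 0 = List.replicate n (3 * m + 1) ++ (B 0 ++ List.replicate n (3 * m + 1)) := by
    rw [hB', pz_0]
  have hB'1 : B' 1 = B 1 := by rw [hB', pz_ne _ _ _ (by norm_num)]
  rw [← hB'] at hP hQ hBs hsB'
  have hx0 := hBs.x0
  have hy0 := hBs.y0
  have hdy : dy (B' 0) = List.replicate n (3 * m + 1) ++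
      (dy (B 0) ++ List.replicate n (3 * m + 1)) := by
    rw [hB'0, dy_append, dy_append, rep_dy hz3]
  have hm0 : 0 ∈ dy (B 0) := by
    rw [← List.count_pos_iff, count_dy (by norm_num)]
    rw [hB'0, List.count_append, List.count_append] at hx0
    have h8 : (List.replicate n (3 * m + 1)).count 0 = 0 :=
      List.count_eq_zero.2 (fun h => by have := List.eq_of_mem_replicate h; omega)
    omega
  have hm3 : 3 ∉ dy (B 0) := List.count_eq_zero.1 count_dy3
  have hn := S.hz.n2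
  obtain ⟨t1, t2⟩ := tk2_W (n := n) (z := 3 * m + 1) (u := 0) (v := 3) (l := 1) hn (le_refl 1)
    (by omega) (by omega) (Or.inl ⟨rfl, rfl⟩) hm0 hm3
  rw [← hdy] at t1 t2
  have hsdy : SFr (dy (B' 0)) := sfr_filter (hsB' 0)
  have hsdy1 : SFr (dy (B' 1)) := sfr_filter (hsB' 1)
  have h3s : SFr [3] := sfr_cons (by norm_num) sfr_nil
  have hst : SFr (tk n (3 * m + 1) 3 1) := sfr_tk (by omega) (by omega)
  have e0 : tyz1 n m B' 0 = dy (B' 0) ++ tk n (3 * m + 1) 3 1 := rfl
  have e1 : tyz1 n m B' 1 = dy (B' 1) ++ [3] := rfl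
  have f0 : tyz2 n m B' 0 = tk n (3 * m + 1) 3 1 ++ dy (B' 0) := rfl
  have hfd : fxy (dy (B' 0)) = [0] :=
    fxy_one (Or.inl ⟨rfl, rfl⟩) (by rw [count_dy (by norm_num)]; exact hx0) count_dy3
  have hcnt : ∀ u, u ≠ 3 * m + 1 → (dxy (B' 0)).count u + ((if 0 = u then 1 else 0) +
      (if 3 = u then 1 else 0)) = (dy (B' 0)).count u + (if 3 = u then 1 else 0) := by
    intro u _
    by_cases hu0 : u = 0
    · subst hu0
      rw [count_dxy0, count_dy (by norm_num), hx0]
      norm_num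
    · by_cases hu3 : u = 3
      · subst hu3
        rw [count_dxy3, count_dy3]
        norm_num
      · rw [count_dxy hu0 hu3, count_dy hu3, if_neg (fun h => hu0 h.symm)]
        omega
  refine ee1 h1 h2 h3 h6 h7 S (P := tyz1 n m B') (Q := tyz2 n m B') (e := e) (E := dxy (B' 0))
    (A := A) (g := g) (C := []) ?_ ?_ hse hP hQ ?_ (sfr_filter (hsB' 0)) ?_ ?_ ?_ ?_ ?_ ?_ ?_ ?_ ?_
    ?_ ?_ ?_
  · intro r
    unfold tyz1
    split_ifs
    · exact sfr_append hsdy hst
    · exact sfr_append hsdy1 h3s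
    · exact hsB' r
  · intro r
    unfold tyz2
    split_ifs
    · exact sfr_append hst hsdy
    · exact sfr_append hsdy1 h3s
    · exact hsB' r
  · intro r hr
    unfold tyz1 tyz2
    rw [if_neg hr, if_neg hr]
  · exact fxy_nil (List.count_eq_zero.1 count_dxy0) (List.count_eq_zero.1 count_dxy3)
  · intro u hu
    rw [e0, KZ2, List.count_append, List.count_append, List.count_append, tk_count_ne hu,
      tk_count_ne hu, tk_count_ne hu]
    have := hcnt u hu
    omega
  · intro u hu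
    rw [f0, KZ2, List.count_append, List.count_append, List.count_append, tk_count_ne hu,
      tk_count_ne hu, tk_count_ne hu]
    have := hcnt u hu
    omega
  · rw [e0, fxy_append, hfd, fxy_tk (by omega) (by omega) (Or.inr rfl)]
    rfl
  · rw [f0, fxy_append, hfd, fxy_tk (by omega) (by omega) (Or.inr rfl)]
    rfl
  · rw [e0, List.count_append, tk_count_z (by omega) (by omega), count_dy hz3,
      count_dxy (by omega) (by omega)]
  · rw [f0, List.count_append, tk_count_z (by omega) (by omega), count_dy hz3,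
      count_dxy (by omega) (by omega)]
    omega
  · rw [e0]
    exact t1
  · rw [f0]
    exact t2
  · rw [e1, hB'1, hB1]
    simp only [List.append_assoc, List.cons_append]
  · intro a ha
    rw [e1, hB'1]
    refine List.mem_append_left _ ?_
    unfold dy
    rw [List.mem_filter]
    exact ⟨hfu a ha, decide_eq_true (can_ne S.can ha).2⟩
  · rcases hor with h | h
    · exact Or.inl h
    · exact Or.inr (Or.inl h)

/-- the letter `x` is deleted and inserted again -/
theorem eex (h1 : LqrStmt) (h2 : BazStmt) (h3 : LbzStmt) (h5 : TrzStmt) (h6 : BlnStmt)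
    (h7 : XczStmt) (S : Sc n β m R c)
    {X : List ℕ} (hX : XX X) {B : ℕ → List ℕ} {e g C : List ℕ} (hsB : ∀ r, SFr (B r))
    (hse : SFr e) (hB : RR β (ExZ n m R c X) (Bw R (pz n (3 * m + 1) B) ++ e))
    (hfu : ∀ a ∈ c, a ∈ B 1)
    (hB1 : dx (B 1) = g ++ 3 :: C) (hor : (∃ a ∈ c, a ∉ g) ∨ C ≠ []) : EZ n β m R c := by
  have hz0 : 3 * m + 1 ≠ 0 := by omega
  have hsB' := sfr_pz (n := n) (z := 3 * m + 1) (by omega) hsB
  have hBs := h2 n β m R c X (pz n (3 * m + 1) B) e S.hz S.can S.pR S.b01 hX hsB' hse hB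
  obtain ⟨-, -, -, hP, hQ⟩ :=
    h5 n β m R c X (pz n (3 * m + 1) B) e S.hz S.can S.pR S.b01 hX hsB' hse hB
  obtain ⟨B', hB'⟩ : ∃ B', B' = pz n (3 * m + 1) B := ⟨_, rfl⟩
  have hB'0 : B' 0 = List.replicate n (3 * m + 1) ++ (B 0 ++ List.replicate n (3 * m + 1)) := by
    rw [hB', pz_0]
  have hB'1 : B' 1 = B 1 := by rw [hB', pz_ne _ _ _ (by norm_num)]
  rw [← hB'] at hP hQ hBs hsB'
  have hx0 := hBs.x0
  have hy0 := hBs.y0
  have hdx : dx (B' 0) = List.replicate n (3 * m + 1) ++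
      (dx (B 0) ++ List.replicate n (3 * m + 1)) := by
    rw [hB'0, dx_append, dx_append, rep_dx hz0]
  have hm3 : 3 ∈ dx (B 0) := by
    rw [← List.count_pos_iff, count_dx (by norm_num)]
    rw [hB'0, List.count_append, List.count_append] at hy0
    have h8 : (List.replicate n (3 * m + 1)).count 3 = 0 :=
      List.count_eq_zero.2 (fun h => by have := List.eq_of_mem_replicate h; omega)
    omega
  have hm0 : 0 ∉ dx (B 0) := List.count_eq_zero.1 count_dx0
  have hn := S.hz.n2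
  obtain ⟨t1, t2⟩ := tk2_W (n := n) (z := 3 * m + 1) (u := 3) (v := 0) (l := 0) hn (by norm_num)
    (by omega) (by omega) (Or.inr ⟨rfl, rfl⟩) hm3 hm0
  rw [← hdx] at t1 t2
  have hsdx : SFr (dx (B' 0)) := sfr_filter (hsB' 0)
  have hsdx1 : SFr (dx (B' 1)) := sfr_filter (hsB' 1)
  have hst : SFr (tk n (3 * m + 1) 0 0) := sfr_tk (by omega) (by omega)
  have e0 : txz1 n m B' 0 = tk n (3 * m + 1) 0 0 ++ dx (B' 0) := rfl
  have e1 : txz1 n m B' 1 = 0 :: dx (B' 1) := rfl
  have f0 : txz2 n m B' 0 = dx (B' 0) ++ tk n (3 * m + 1) 0 0 := rfl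
  have hfd : fxy (dx (B' 0)) = [3] :=
    fxy_one (Or.inr ⟨rfl, rfl⟩) (by rw [count_dx (by norm_num)]; exact hy0) count_dx0
  have hcnt : ∀ u, u ≠ 3 * m + 1 → (dxy (B' 0)).count u + ((if 0 = u then 1 else 0) +
      (if 3 = u then 1 else 0)) = (dx (B' 0)).count u + (if 0 = u then 1 else 0) := by
    intro u _
    by_cases hu0 : u = 0
    · subst hu0
      rw [count_dxy0, count_dx0]
      norm_num
    · by_cases hu3 : u = 3
      · subst hu3
        rw [count_dxy3, count_dx (by norm_num), hy0]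
        norm_num
      · rw [count_dxy hu0 hu3, count_dx hu0, if_neg (fun h => hu0 h.symm),
          if_neg (fun h => hu3 h.symm)]
  refine ee1 h1 h2 h3 h6 h7 S (P := txz1 n m B') (Q := txz2 n m B') (e := e) (E := dxy (B' 0))
    (A := []) (g := g) (C := C) ?_ ?_ hse hP hQ ?_ (sfr_filter (hsB' 0)) ?_ ?_ ?_ ?_ ?_ ?_ ?_ ?_ ?_
    ?_ ?_ ?_
  · intro r
    unfold txz1
    split_ifs
    · exact sfr_append hst hsdx
    · exact sfr_cons (by norm_num) hsdx1
    · exact hsB' r
  · intro r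
    unfold txz2
    split_ifs
    · exact sfr_append hsdx hst
    · exact sfr_cons (by norm_num) hsdx1
    · exact hsB' r
  · intro r hr
    unfold txz1 txz2
    rw [if_neg hr, if_neg hr]
  · exact fxy_nil (List.count_eq_zero.1 count_dxy0) (List.count_eq_zero.1 count_dxy3)
  · intro u hu
    rw [e0, KZ2, List.count_append, List.count_append, List.count_append, tk_count_ne hu,
      tk_count_ne hu, tk_count_ne hu]
    have := hcnt u hu
    omega
  · intro u hu
    rw [f0, KZ2, List.count_append, List.count_append, List.count_append, tk_count_ne hu,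
      tk_count_ne hu, tk_count_ne hu]
    have := hcnt u hu
    omega
  · rw [e0, fxy_append, hfd, fxy_tk (by omega) (by omega) (Or.inl rfl)]
    rfl
  · rw [f0, fxy_append, hfd, fxy_tk (by omega) (by omega) (Or.inl rfl)]
    rfl
  · rw [e0, List.count_append, tk_count_z (by omega) (by omega), count_dx hz0,
      count_dxy (by omega) (by omega)]
    omega
  · rw [f0, List.count_append, tk_count_z (by omega) (by omega), count_dx hz0,
      count_dxy (by omega) (by omega)]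
  · rw [e0]
    exact t2
  · rw [f0]
    exact t1
  · rw [e1, hB'1, hB1]
    rfl
  · intro a ha
    rw [e1, hB'1]
    refine List.mem_cons_of_mem _ ?_
    unfold dx
    rw [List.mem_filter]
    exact ⟨hfu a ha, decide_eq_true (can_ne S.can ha).1⟩
  · rcases hor with h | h
    · exact Or.inl h
    · exact Or.inr (Or.inr h)

/-- all letters of the chain are in block `1` -/
theorem fu_all (h2 : BazStmt) (h5 : TrzStmt) (h7 : XczStmt) (S : Sc n β m R c)
    {X : List ℕ} (hX : XX X) {B : ℕ → List ℕ} {e : List ℕ} (hsB : ∀ r, SFr (B r))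
    (hse : SFr e) (hB : RR β (ExZ n m R c X) (Bw R (pz n (3 * m + 1) B) ++ e)) :
    ∀ a ∈ c, a ∈ B 1 := by
  intro a ha
  by_contra hn
  have hsB' := sfr_pz (n := n) (z := 3 * m + 1) (by omega) hsB
  obtain ⟨hT, -, -, -, -⟩ :=
    h5 n β m R c X (pz n (3 * m + 1) B) e S.hz S.can S.pR S.b01 hX hsB' hse hB
  obtain ⟨B', hB'⟩ : ∃ B', B' = pz n (3 * m + 1) B := ⟨_, rfl⟩
  have hB'1 : B' 1 = B 1 := by rw [hB', pz_ne _ _ _ (by norm_num)]
  rw [← hB'] at hT hsB'
  have h3s : SFr [3] := sfr_cons (by norm_num) sfr_nil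
  apply S.no
  refine ee0 h2 h7 S (P := tbz n m B' [0, 3]) (Q := tbz n m B' [3, 0]) (e := e)
    (E := dxy (B' 0)) (A := []) (g := dxy (B' 1)) (C := []) ?_ hse (hT _ (Or.inl rfl))
    (hT _ (Or.inr rfl)) ?_ rfl rfl rfl ?_
  · intro r
    unfold tbz
    split_ifs
    · exact sfr_append (sfr_KZ (by omega) (by omega) (by omega)) (sfr_filter (hsB' 0))
    · exact sfr_cons (by norm_num) (sfr_append (sfr_filter (hsB' 1)) h3s)
    · exact hsB' r
  · intro r hr
    unfold tbz
    rw [if_neg hr, if_neg hr]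
  · left
    refine ⟨a, ha, fun h => hn ?_⟩
    rw [← hB'1]
    exact List.mem_of_mem_filter h

end

/-- **CPZ** -/
theorem cpz (h1 : LqrStmt) (h2 : BazStmt) (h3 : LbzStmt) (_h4 : UpzStmt) (h5 : TrzStmt)
    (h6 : BlnStmt) (h7 : XczStmt) : CpzStmt := by
  intro n β m R c hz hcan hne hih hpR hb hno X B e hX hsB hse hB
  have S : Sc n β m R c := ⟨hz, hcan, hne, hih, hpR, hb, hno⟩
  have hsB' := sfr_pz (n := n) (z := 3 * m + 1) (by omega) hsB
  have hBs := h2 n β m R c X (pz n (3 * m + 1) B) e S.hz S.can S.pR S.b01 hX hsB' hse hB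
  have hB'1 : pz n (3 * m + 1) B 1 = B 1 := pz_ne _ _ _ (by norm_num)
  have hfu := fu_all h2 h5 h7 S hX hsB hse hB
  have hR1 : 1 ∈ R := S.pR.mem_iff.mpr (List.mem_range.mpr (by omega))
  have hz1 : 3 * m + 1 ∉ B 1 := by
    rw [← hB'1]
    exact hBs.z1 1 hR1 S.b01
  have hx1 := hBs.x1
  have hy1 := hBs.y1
  rw [hB'1] at hx1 hy1
  have hin : ∀ u ∈ B 1, 3 * m + 1 ≠ u ∧ (u = 0 ∨ u = 3 ∨ u ∈ c) := by
    intro u hu
    refine ⟨fun h => hz1 (h ▸ hu), ?_⟩
    have ha2 : u ∈ Bw R (pz n (3 * m + 1) B) ++ e := by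
      refine List.mem_append_left _ ?_
      unfold Bw
      rw [List.mem_flatMap]
      exact ⟨1, hR1, List.mem_append_left _ (by rw [hB'1]; exact hu)⟩
    rcases hBs.ct u ha2 (hsB 1 u hu) with hh | hh | hh | hh
    · exact Or.inl hh
    · exact Or.inr (Or.inl hh)
    · exact absurd (hh ▸ hu) hz1
    · exact Or.inr (Or.inr hh)
  have key : ∃ h, B 1 = 0 :: (h ++ [3]) ∧ 0 ∉ h ∧ 3 ∉ h ∧ (∀ a ∈ c, a ∈ h) := by
    rcases split2 hx1 hy1 with ⟨A, g, C, hE, a0, g0, c0, a3, g3, c3⟩ |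
      ⟨A, g, C, hE, a0, g0, c0, a3, g3, c3⟩
    · have hy : dy (B 1) = A ++ 0 :: (g ++ C) := by
        rw [hE, dy_append, dy_0, dy_append, dy_3, dy_self a3, dy_self g3, dy_self c3]
      have hA : A = [] := by
        by_contra hA
        exact S.no (eey h1 h2 h3 h5 h6 h7 S hX hsB hse hB hfu hy (Or.inr hA))
      subst hA
      have hx : dx (B 1) = g ++ 3 :: C := by
        rw [hE, dx_append, dx_0, dx_append, dx_3, dx_self g0, dx_self c0]
        rfl
      have hC : C = [] := by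
        by_contra hC
        exact S.no (eex h1 h2 h3 h5 h6 h7 S hX hsB hse hB hfu hx (Or.inr hC))
      subst hC
      refine ⟨g, hE, g0, g3, ?_⟩
      intro a ha
      by_contra hn
      exact S.no (eex h1 h2 h3 h5 h6 h7 S hX hsB hse hB hfu hx (Or.inl ⟨a, ha, hn⟩))
    · exfalso
      have hy : dy (B 1) = (A ++ g) ++ 0 :: C := by
        rw [hE, dy_append, dy_3, dy_append, dy_0, dy_self a3, dy_self g3, dy_self c3]
        simp only [List.append_assoc]
      have hA : A ++ g = [] := by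
        by_contra hA
        exact S.no (eey h1 h2 h3 h5 h6 h7 S hX hsB hse hB hfu hy (Or.inr hA))
      obtain ⟨hA1, hA2⟩ := List.append_eq_nil_iff.mp hA
      subst hA1
      subst hA2
      have hx : dx (B 1) = [] ++ 3 :: C := by
        rw [hE]
        simp only [List.nil_append]
        rw [dx_3, dx_0, dx_self c0]
      obtain ⟨a, ha⟩ := List.exists_mem_of_ne_nil c S.ne
      exact S.no (eex h1 h2 h3 h5 h6 h7 S hX hsB hse hB hfu hx (Or.inl ⟨a, ha, List.not_mem_nil⟩))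
  obtain ⟨h, hB1, h0, h3', hall⟩ := key
  refine ⟨h, hB1, h0, h3', hall, ?_⟩
  intro a ha
  have ha1 : a ∈ B 1 := by
    rw [hB1]
    exact List.mem_cons_of_mem _ (List.mem_append_left _ ha)
  rcases (hin a ha1).2 with hh | hh | hh
  · exact absurd (hh ▸ ha) h0
  · exact absurd (hh ▸ ha) h3'
  · exact hh

end Pool.Agent.MWFE.H19C
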